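import Pool.Agent.Helper32.CL.St2
import Pool.Agent.Helper98.PI2.M_GH

/-!
Project CL (MP_b2fa09_gt), module WJ: jets of `W = F^⊥ + l H` on the graph.
-/

set_option autoImplicit false

namespace Pool.Agent.Helper51.CL

open Helper32.CL Helper35.PI Helper35.PI2
open Helper2.PI Helper98.PI2
open scoped ContDiff Manifold Topology ENNReal BigOperators
open MeasureTheory Set Filter

section Aux

variable {n N : ℕ}

/-- coordinates of space time -/
noncomputable def pk (k : Fin n) : EE n × ℝ →L[ℝ] ℝ :=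
  (EuclideanSpace.proj k : EE n →L[ℝ] ℝ).comp (ContinuousLinearMap.fst ℝ (EE n) ℝ)

lemma pk_apply (k : Fin n) (z : EE n × ℝ) : pk k z = z.1 k := rfl

lemma pk_e (k m : Fin n) : pk k ((ee m, 0) : EE n × ℝ) = if k = m then 1 else 0 := by
  rw [pk_apply]
  simp [ee]

lemma pk_t (k : Fin n) (s : ℝ) : pk k ((0, s) : EE n × ℝ) = 0 := by
  rw [pk_apply]
  simp

lemma expand (x : EE n) : x = ∑ k, x k • (ee k : EE n) := by
  ext i
  simp [ee, Finset.sum_apply, Pi.single_apply]

lemma DD_cs (v : Fin n → ℝ) (φ : Fin n → EE n × ℝ → EE N) {z : EE n × ℝ}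
    (h : ∀ k, DifferentiableAt ℝ (φ k) z) (d : EE n × ℝ) :
    DD d (fun z => ∑ k, (pk k z + v k) • φ k z) z
      = ∑ k, ((pk k z + v k) • DD d (φ k) z + pk k d • φ k z) := by
  have h1 : ∀ k, DifferentiableAt ℝ (fun z => pk k z + v k) z := fun k =>
    (pk k).differentiableAt.add_const (v k)
  rw [DD_sum Finset.univ (fun k z => (pk k z + v k) • φ k z) (fun k _ => (h1 k).smul (h k)) d]
  refine Finset.sum_congr rfl fun k _ => ?_
  rw [DD_smul (fun z => pk k z + v k) (φ k) (h1 k) (h k) d]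
  congr 2
  unfold DD
  rw [fderiv_add_const, ContinuousLinearMap.fderiv]

lemma DD_sub {E V : Type*} [NormedAddCommGroup E] [NormedSpace ℝ E]
    [NormedAddCommGroup V] [NormedSpace ℝ V] {φ ψ : E → V} {z : E}
    (h1 : DifferentiableAt ℝ φ z) (h2 : DifferentiableAt ℝ ψ z)
    (v : E) : DD v (fun z => φ z - ψ z) z = DD v φ z - DD v ψ z := by
  unfold DD
  rw [fderiv_fun_sub h1 h2]
  simp

lemma DD_cadd {E V : Type*} [NormedAddCommGroup E] [NormedSpace ℝ E]
    [NormedAddCommGroup V] [NormedSpace ℝ V] (c : V) {φ : E → V} {z : E}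
    (v : E) : DD v (fun z => c + φ z) z = DD v φ z := by
  unfold DD
  rw [fderiv_const_add]

lemma ee_inner (i j : Fin n) : (inner ℝ (ee i : EE n) (ee j) : ℝ) = if i = j then 1 else 0 := by
  simp [ee, EuclideanSpace.inner_single_left]

end Aux

theorem hWJ (hNJ : StNJ) (hGH : StGH) (hNR : StNR) (hG0 : StG0) (hG1 : StG1) (hG2 : StG2)
    (_hSM : StSM) (hJA : StJA) (hJB : StJB) : StWJ := by
  intro n N x₀ L u t₀ hu A T ν v hj l
  obtain ⟨hA, hT, hv, hν⟩ := hj
  set z₀ : EE n × ℝ := (0, t₀) with hz₀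
  have hs : ContDiffAt ℝ ∞ u z₀ := hu.smooth
  let e : Fin n → EE n × ℝ := fun k => (ee k, 0)
  let τ : EE n × ℝ := (0, 1)
  have g2 := hG2 n N x₀ L u t₀ hu
  obtain ⟨symA, symT, perpA, perpT⟩ := hG1 n N x₀ L u t₀ hu
  obtain ⟨gh1, gh2, gh3, gh4, -⟩ := hGH n N x₀ L u t₀ hu A T hA hT
  rw [← hA] at symA perpA
  rw [← hT] at symT perpT
  -- smoothness
  have s1 : ∀ v, ContDiffAt ℝ ∞ (DD v u) z₀ := fun v => DD_inf hs v
  have s2 : ∀ v w, ContDiffAt ℝ ∞ (DD v (DD w u)) z₀ := fun v w => DD_inf (s1 w) v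
  -- the equation
  have hpde : DD τ u =ᶠ[𝓝 z₀] fun z => ∑ a, ∑ b, GIf x₀ L u a b z • DD (e a) (DD (e b) u) z := by
    filter_upwards [hu.pde] with z hz
    exact hz
  have hδ : ∀ (W : Fin n → Fin n → EE N), ∑ a, ∑ b, (if a = b then (1 : ℝ) else 0) • W a b
      = ∑ a, W a a := by
    intro W
    refine Finset.sum_congr rfl fun a _ => ?_
    rw [Finset.sum_eq_single a]
    · simp
    · intro b _ hb
      rw [if_neg (Ne.symm hb), zero_smul]
    · intro h
      exact absurd (Finset.mem_univ a) h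
  have v0 : DD τ u z₀ = Hv A := by
    rw [hpde.self_of_nhds]
    show ∑ a, ∑ b, GIf x₀ L u a b z₀ • DD (e a) (DD (e b) u) z₀ = Hv A
    have h1 : ∀ a b : Fin n, GIf x₀ L u a b z₀ • DD (e a) (DD (e b) u) z₀
        = (if a = b then (1 : ℝ) else 0) • A a b := by
      intro a b
      rw [show GIf x₀ L u a b z₀ = (if a = b then 1 else 0) from
        (hG0 n N x₀ L u t₀ hu a b).2.1, hA]
      rfl
    rw [Finset.sum_congr rfl fun a _ => Finset.sum_congr rfl fun b _ => h1 a b]
    rw [hδ A]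
    rfl
  -- derivatives of the equation in a direction in which the metric is stationary
  have hvd : ∀ d : EE n × ℝ, (∀ a b, DD d (GIf x₀ L u a b) z₀ = 0) →
      DD d (DD τ u) z₀ = ∑ a, DD d (DD (e a) (DD (e a) u)) z₀ := by
    intro d hd
    rw [DD_congr hpde d]
    have d1 : ∀ a b : Fin n, DifferentiableAt ℝ (GIf x₀ L u a b) z₀ := fun a b =>
      diff_of (hG0 n N x₀ L u t₀ hu a b).1
    have d2 : ∀ a b : Fin n, DifferentiableAt ℝ (DD (e a) (DD (e b) u)) z₀ := fun a b =>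
      diff_of (s2 _ _)
    rw [DD_sum Finset.univ (fun a z => ∑ b, GIf x₀ L u a b z • DD (e a) (DD (e b) u) z)
      (fun a _ => DifferentiableAt.fun_sum fun b _ => (d1 a b).smul (d2 a b)) d]
    have h1 : ∀ a : Fin n, DD d (fun z => ∑ b, GIf x₀ L u a b z • DD (e a) (DD (e b) u) z) z₀
        = ∑ b, (if a = b then (1 : ℝ) else 0) • DD d (DD (e a) (DD (e b) u)) z₀ := by
      intro a
      rw [DD_sum Finset.univ (fun b z => GIf x₀ L u a b z • DD (e a) (DD (e b) u) z)
        (fun b _ => (d1 a b).smul (d2 a b)) d]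
      refine Finset.sum_congr rfl fun b _ => ?_
      obtain ⟨-, q2, -, -, -⟩ := hG0 n N x₀ L u t₀ hu a b
      rw [DD_smul (GIf x₀ L u a b) (DD (e a) (DD (e b) u)) (d1 a b) (d2 a b) d]
      rw [show GIf x₀ L u a b z₀ = (if a = b then 1 else 0) from q2, hd a b, zero_smul, add_zero]
    rw [Finset.sum_congr rfl fun a _ => h1 a, hδ fun a b => DD d (DD (e a) (DD (e b) u)) z₀]
  have v1 : ∀ m, DD (e m) (DD τ u) z₀ = et T m := by
    intro m
    rw [hvd (e m) fun a b => (hG0 n N x₀ L u t₀ hu a b).2.2.1 m]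
    unfold et
    refine Finset.sum_congr rfl fun i _ => ?_
    have h1 : DD (e m) (DD (e i) (DD (e i) u)) z₀ = T m i i := by
      rw [hT]
      rfl
    rw [h1, symT.1 m i i, symT.2 i m i]
  have v2 : DD τ (DD τ u) z₀ = ∑ a, ut u z₀ a a :=
    hvd τ fun a b => (hG0 n N x₀ L u t₀ hu a b).2.2.2.1
  have p0 : ∀ᶠ z in 𝓝 z₀, ∀ w : EE n, (inner ℝ (DD τ u z) (L w) : ℝ) = 0 := by
    filter_upwards [diff_ev hs, hu.perp.eventually_nhds] with z h1 h2 w
    exact DD_perp (L w) h1 (h2.mono fun z' hz' => hz' w) τ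
  have hHf : Hf x₀ L u =ᶠ[𝓝 z₀] fun z => nrm (grf x₀ L u z.2) z.1 (DD τ u z) := by
    filter_upwards [g2, hpde] with z hz hp
    show ∑ i, ∑ j, (gram (grf x₀ L u z.2) z.1)⁻¹ i j •
      nrm (grf x₀ L u z.2) z.1 (dv2 (grf x₀ L u z.2) z.1 i j) = _
    rw [nrm_sum hNR _ _ hz.2.2.2.2 (fun i j => (gram (grf x₀ L u z.2) z.1)⁻¹ i j)
      (fun i j => dv2 (grf x₀ L u z.2) z.1 i j), hp]
    congr 1
    refine Finset.sum_congr rfl fun i _ => Finset.sum_congr rfl fun j _ => ?_
    rw [hz.2.1 i j]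
    rfl
  -- time derivative of `H`
  have hHt : ∀ w : EE N, (∀ x : EE n, (inner ℝ w (L x) : ℝ) = 0) →
      (inner ℝ w (jt (Hf x₀ L u) z₀) : ℝ) = ∑ a, inner ℝ w (ut u z₀ a a) := by
    intro w hw
    obtain ⟨-, -, -, n4⟩ := hNJ n N x₀ L u t₀ hu (DD τ u) (s1 τ) p0
      (fun z => nrm (grf x₀ L u z.2) z.1 (DD τ u z)) rfl
    have h1 : jt (Hf x₀ L u) z₀
        = jt (fun z => nrm (grf x₀ L u z.2) z.1 (DD τ u z)) z₀ := DD_congr hHf τ
    rw [h1, (n4 w hw).1]
    rw [show jt (DD τ u) (0, t₀) = ∑ a, ut u z₀ a a from v2, inner_sum]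
  -- the field `V`
  have hνL : ∀ w : EE n, (inner ℝ ν (L w) : ℝ) = 0 := by
    intro w
    have h1 : ∀ j, (inner ℝ ν (L (ee j)) : ℝ) = 0 := by
      intro j
      rw [hν, inner_sub_left, sum_inner]
      have h2 : ∀ k, (inner ℝ (v k • L (ee k)) (L (ee j)) : ℝ) = v k * (if k = j then 1 else 0) := by
        intro k
        rw [real_inner_smul_left, L.inner_map_map, ee_inner]
      rw [Finset.sum_congr rfl fun k _ => h2 k]
      simp [hv]
    rw [expand w, map_sum, inner_sum]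
    refine Finset.sum_eq_zero fun k _ => ?_
    rw [map_smul, real_inner_smul_right, h1, mul_zero]
  set V : EE n × ℝ → EE N := fun z => (ν + u z) - ∑ k, (pk k z + v k) • DD (e k) u z with hV
  have sck : ∀ k : Fin n, ContDiffAt ℝ ∞ (fun z => pk k z + v k) z₀ := fun k =>
    (pk k).contDiff.contDiffAt.add contDiffAt_const
  have sV : ContDiffAt ℝ ∞ V z₀ :=
    (contDiffAt_const.add hs).sub (ContDiffAt.sum fun k _ => (sck k).smul (s1 (e k)))
  have pV : ∀ᶠ z in 𝓝 z₀, ∀ w : EE n, (inner ℝ (V z) (L w) : ℝ) = 0 := by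
    filter_upwards [g2, hu.perp] with z h1 h2 w
    rw [hV]
    show (inner ℝ ((ν + u z) - ∑ k, (pk k z + v k) • DD (e k) u z) (L w) : ℝ) = 0
    rw [inner_sub_left, inner_add_left, hνL, h2, sum_inner]
    rw [Finset.sum_eq_zero]
    · simp
    · intro k _
      rw [real_inner_smul_left, show (inner ℝ (DD (e k) u z) (L w) : ℝ) = 0 from
        (h1.2.2.2.1 k k w).1, mul_zero]
  -- the normal part of `f`
  have hnf : (fun z : EE n × ℝ => nrm (grf x₀ L u z.2) z.1 (grf x₀ L u z.2 z.1)) =ᶠ[𝓝 z₀]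
      fun z => nrm (grf x₀ L u z.2) z.1 (V z) := by
    filter_upwards [g2] with z hz
    obtain ⟨-, hspan, -, -, hadd, -, -, -⟩ := hNR n N (grf x₀ L u z.2) z.1 hz.2.2.2.2
    have h1 : grf x₀ L u z.2 z.1 = V z + ∑ k, (pk k z + v k) • dv1 (grf x₀ L u z.2) z.1 k := by
      have h2 : ∀ k, dv1 (grf x₀ L u z.2) z.1 k = L (ee k) + DD (e k) u z := fun k => hz.1 k
      have h3 : L z.1 = ∑ k, pk k z • L (ee k) := by
        conv_lhs => rw [expand z.1]
        rw [map_sum]
        refine Finset.sum_congr rfl fun k _ => ?_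
        rw [map_smul]
        rfl
      have h4 : ∑ k, v k • L (ee k) = x₀ - ν := by
        rw [hν]
        abel
      have h5 : ∑ k, (pk k z + v k) • dv1 (grf x₀ L u z.2) z.1 k
          = L z.1 + (x₀ - ν) + ∑ k, (pk k z + v k) • DD (e k) u z := by
        rw [h3, ← h4, ← Finset.sum_add_distrib, ← Finset.sum_add_distrib]
        refine Finset.sum_congr rfl fun k _ => ?_
        rw [h2 k, smul_add, add_smul (pk k z) (v k) (L (ee k))]
      rw [h5]
      show x₀ + L z.1 + u z = (ν + u z) - ∑ k, (pk k z + v k) • DD (e k) u z +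
        (L z.1 + (x₀ - ν) + ∑ k, (pk k z + v k) • DD (e k) u z)
      abel
    rw [h1, hadd, hspan (∑ k, (pk k z + v k) • dv1 (grf x₀ L u z.2) z.1 k)
      (Submodule.sum_mem _ fun k _ => Submodule.smul_mem _ _ (Submodule.subset_span ⟨k, rfl⟩)),
      add_zero]
  set nv : EE n × ℝ → EE N := fun z => nrm (grf x₀ L u z.2) z.1 (V z) with hnv
  obtain ⟨n1, n2, n3, n4⟩ := hNJ n N x₀ L u t₀ hu V sV pV nv rfl
  have pz : ∀ k : Fin n, pk k z₀ = 0 := fun k => pk_t k t₀
  have uk0 : ∀ k : Fin n, DD (e k) u z₀ = 0 := fun k => hu.du0 k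
  -- jets of `V`
  have V0 : V z₀ = ν := by
    rw [hV]
    show (ν + u z₀) - ∑ k, (pk k z₀ + v k) • DD (e k) u z₀ = ν
    rw [Finset.sum_eq_zero fun k _ => by rw [uk0, smul_zero], hu.u0]
    simp
  have Vd : ∀ d, DD d V =ᶠ[𝓝 z₀] fun z => DD d u z -
      ∑ k, ((pk k z + v k) • DD d (DD (e k) u) z + pk k d • DD (e k) u z) := by
    intro d
    have hall : ∀ᶠ z in 𝓝 z₀, ∀ k, DifferentiableAt ℝ (DD (e k) u) z :=
      Filter.eventually_all.2 fun k => diff_ev (s1 (e k))
    filter_upwards [diff_ev hs, hall] with z h1 h2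
    have h3 : ∀ k : Fin n, DifferentiableAt ℝ (fun z => pk k z + v k) z := fun k =>
      (pk k).differentiableAt.add_const (v k)
    rw [hV, DD_sub (φ := fun z => ν + u z) (ψ := fun z => ∑ k, (pk k z + v k) • DD (e k) u z)
      ((differentiableAt_const ν).add h1)
      (DifferentiableAt.fun_sum fun k _ => (h3 k).smul (h2 k)), DD_cadd,
      DD_cs v (fun k => DD (e k) u) h2 d]
  have V1 : ∀ m, jg V z₀ m = -∑ k, v k • A m k := by
    intro m
    have h1 : DD (e m) V z₀ = DD (e m) u z₀ - ∑ k, ((pk k z₀ + v k) • DD (e m) (DD (e k) u) z₀ +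
      pk k (e m) • DD (e k) u z₀) := (Vd (e m)).self_of_nhds
    show DD (e m) V z₀ = _
    rw [h1, uk0, zero_sub]
    congr 1
    refine Finset.sum_congr rfl fun k _ => ?_
    rw [uk0, smul_zero, add_zero, pz, zero_add, hA]
    rfl
  have Vt : jt V z₀ = Hv A - ∑ k, v k • et T k := by
    have h1 : DD τ V z₀ = DD τ u z₀ - ∑ k, ((pk k z₀ + v k) • DD τ (DD (e k) u) z₀ +
      pk k τ • DD (e k) u z₀) := (Vd τ).self_of_nhds
    show DD τ V z₀ = _
    rw [h1, v0]
    congr 1
    refine Finset.sum_congr rfl fun k _ => ?_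
    rw [uk0, smul_zero, add_zero, pz, zero_add, DD_comm (two_of hs) τ (e k), v1]
  have V2 : ∀ i j, jgg V z₀ i j = -(A j i + ∑ k, v k • T i j k) := by
    intro i j
    have h1 : DD (e j) V =ᶠ[𝓝 z₀] fun z => -∑ k, (pk k z + v k) • DD (e j) (DD (e k) u) z := by
      filter_upwards [Vd (e j)] with z hz
      rw [hz, Finset.sum_add_distrib]
      have h2 : ∑ k, pk k (e j) • DD (e k) u z = DD (e j) u z := by
        rw [Finset.sum_eq_single j]
        · rw [pk_e, if_pos rfl, one_smul]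
        · intro k _ hk
          rw [pk_e, if_neg hk, zero_smul]
        · intro h
          exact absurd (Finset.mem_univ j) h
      rw [h2]
      abel
    show DD (e i) (DD (e j) V) z₀ = _
    rw [DD_congr h1 (e i)]
    have h3 : DD (e i) (fun z => -∑ k, (pk k z + v k) • DD (e j) (DD (e k) u) z) z₀ =
        -DD (e i) (fun z => ∑ k, (pk k z + v k) • DD (e j) (DD (e k) u) z) z₀ := by
      unfold DD
      rw [fderiv_fun_neg]
      rfl
    rw [h3, DD_cs v (fun k => DD (e j) (DD (e k) u)) (fun k => diff_of (s2 _ _)) (e i),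
      Finset.sum_add_distrib]
    congr 1
    rw [add_comm]
    congr 1
    · rw [Finset.sum_eq_single i]
      · rw [pk_e, if_pos rfl, one_smul, hA]
        rfl
      · intro k _ hk
        rw [pk_e, if_neg hk, zero_smul]
      · intro h
        exact absurd (Finset.mem_univ i) h
    · refine Finset.sum_congr rfl fun k _ => ?_
      rw [pz, zero_add, hT]
      rfl
  -- the field `W`
  set W : EE n × ℝ → EE N := Wlf l x₀ L u with hW
  have hWe : W =ᶠ[𝓝 z₀] fun z => nv z + l • Hf x₀ L u z := by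
    filter_upwards [hnf] with z hz
    show nrm (grf x₀ L u z.2) z.1 (grf x₀ L u z.2 z.1) + l • mcv (grf x₀ L u z.2) z.1 = _
    rw [hz]
    rfl
  have sl : ContDiffAt ℝ ∞ (fun z => l • Hf x₀ L u z) z₀ :=
    ContDiffAt.smul (f := fun _ => l) contDiffAt_const gh1
  have sW0 : ContDiffAt ℝ ∞ (fun z => nv z + l • Hf x₀ L u z) z₀ := ContDiffAt.add n1 sl
  have sW : ContDiffAt ℝ ∞ W z₀ := sW0.congr_of_eventuallyEq hWe
  obtain ⟨ja1, -, ja3, ja4, -⟩ := hJA n (EE N) z₀
  obtain ⟨c1, -, -, c4⟩ := ja1 W (fun z => nv z + l • Hf x₀ L u z) hWe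
  obtain ⟨b1, b2, -, -⟩ := ja3 nv (fun z => l • Hf x₀ L u z) (two_of n1)
    (two_of sl)
  obtain ⟨d1, d2⟩ := ja4 (Hf x₀ L u) l (two_of gh1)
  have W0 : W z₀ = Wl l A ν := by
    rw [hWe.self_of_nhds]
    show nv z₀ + l • Hf x₀ L u z₀ = ν + l • Hv A
    rw [show nv z₀ = V z₀ from n2, V0, show Hf x₀ L u z₀ = Hv A from gh2]
  have W1 : ∀ m, jg W z₀ m = DW l A T v m
      - ∑ a, (inner ℝ (Wl l A ν) (A a m) : ℝ) • L (ee a) := by
    intro m
    rw [c1 m, b1 m, d1 m, n3 m, gh3 m, V1 m, show V (0, t₀) = ν from V0]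
    unfold DW Wl
    have h1 : ∀ a, (inner ℝ (ν + l • Hv A) (A a m) : ℝ) • L (ee a)
        = (inner ℝ ν (A a m) : ℝ) • L (ee a) + l • ((inner ℝ (Hv A) (A a m) : ℝ) • L (ee a)) := by
      intro a
      rw [inner_add_left, real_inner_smul_left, add_smul, mul_smul]
    rw [Finset.sum_congr rfl fun a _ => h1 a, Finset.sum_add_distrib, ← Finset.smul_sum, ← hA,
      smul_sub]
    abel
  have perpW : ∀ x : EE n, (inner ℝ (Wl l A ν) (L x) : ℝ) = 0 := by
    intro x
    unfold Wl Hv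
    rw [inner_add_left, hνL, real_inner_smul_left, sum_inner,
      Finset.sum_eq_zero fun i _ => perpA i i x]
    simp
  have perpD : ∀ m (x : EE n), (inner ℝ (DW l A T v m) (L x) : ℝ) = 0 := by
    intro m x
    unfold DW et
    rw [inner_sub_left, real_inner_smul_left, sum_inner,
      Finset.sum_eq_zero fun i _ => perpT i i m x, sum_inner, Finset.sum_eq_zero]
    · simp
    · intro a _
      rw [real_inner_smul_left, perpA, mul_zero]
  -- the heat of `W`
  have W2 : (inner ℝ (Wl l A ν) (jh W z₀) : ℝ) = 2 * inner ℝ (Wl l A ν) (Hv A)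
      + 2 * ∑ k, ∑ a, (inner ℝ (Wl l A ν) (A a k) : ℝ) * inner ℝ (Wl l A ν) (A a k) := by
    set w := Wl l A ν with hw
    have e1 : (inner ℝ w (jh nv z₀) : ℝ) = 2 * inner ℝ w (Hv A)
        + 2 * ∑ k, ∑ a, (inner ℝ ν (A a k) : ℝ) * inner ℝ w (A a k) := by
      unfold jh
      rw [inner_sub_right, (n4 w perpW).1, Vt, inner_sum]
      have f1 : ∀ k, (inner ℝ w (jgg nv z₀ k k) : ℝ) = -(inner ℝ w (A k k) : ℝ)
          - ∑ m, v m * inner ℝ w (T k k m)
          - 2 * ∑ a, (inner ℝ ν (A a k) : ℝ) * inner ℝ w (A a k) := by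
        intro k
        rw [(n4 w perpW).2 k k, V2 k k, show V (0, t₀) = ν from V0, ← hA, inner_neg_right,
          inner_add_right, inner_sum, Finset.mul_sum]
        have f2 : ∀ m, (inner ℝ w (v m • T k k m) : ℝ) = v m * inner ℝ w (T k k m) := fun m =>
          real_inner_smul_right _ _ _
        rw [Finset.sum_congr rfl fun m _ => f2 m]
        have f3 : ∀ a, ((inner ℝ ν (A a k) : ℝ) * inner ℝ w (A a k)
            + (inner ℝ ν (A a k) : ℝ) * inner ℝ w (A a k))
            = 2 * ((inner ℝ ν (A a k) : ℝ) * inner ℝ w (A a k)) := fun a => by ring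
        rw [Finset.sum_congr rfl fun a _ => f3 a]
        ring
      rw [Finset.sum_congr rfl fun k _ => f1 k]
      simp only [Finset.sum_sub_distrib, Finset.sum_neg_distrib]
      have f4 : ∑ k, (inner ℝ w (A k k) : ℝ) = inner ℝ w (Hv A) := by
        unfold Hv
        rw [inner_sum]
      have f5 : ∑ k, ∑ m, v m * (inner ℝ w (T k k m) : ℝ)
          = inner ℝ w (∑ k, v k • et T k) := by
        rw [Finset.sum_comm, inner_sum]
        refine Finset.sum_congr rfl fun m _ => ?_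
        unfold et
        rw [real_inner_smul_right, inner_sum, Finset.mul_sum]
      rw [f4, f5, inner_sub_right, ← Finset.mul_sum]
      ring
    have e2 : (inner ℝ w (jh (Hf x₀ L u) z₀) : ℝ)
        = 2 * ∑ k, ∑ a, (inner ℝ (Hv A) (A a k) : ℝ) * inner ℝ w (A a k) := by
      unfold jh
      rw [inner_sub_right, hHt w perpW, inner_sum]
      have f1 : ∀ k, (inner ℝ w (jgg (Hf x₀ L u) z₀ k k) : ℝ) = inner ℝ w (ut u z₀ k k)
          - 2 * ∑ a, (inner ℝ (Hv A) (A a k) : ℝ) * inner ℝ w (A a k) := by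
        intro k
        rw [gh4 w perpW k k, Finset.mul_sum]
        congr 1
        refine Finset.sum_congr rfl fun a _ => ?_
        ring
      rw [Finset.sum_congr rfl fun k _ => f1 k, Finset.sum_sub_distrib, ← Finset.mul_sum]
      ring
    rw [c4, b2, d2, inner_add_right, real_inner_smul_right, e1, e2]
    have f6 : ∀ a k, (inner ℝ w (A a k) : ℝ) * inner ℝ w (A a k)
        = (inner ℝ ν (A a k) : ℝ) * inner ℝ w (A a k)
          + l * ((inner ℝ (Hv A) (A a k) : ℝ) * inner ℝ w (A a k)) := by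
      intro a k
      have : (inner ℝ w (A a k) : ℝ) = inner ℝ ν (A a k) + l * inner ℝ (Hv A) (A a k) := by
        rw [hw]
        unfold Wl
        rw [inner_add_left, real_inner_smul_left]
      conv_lhs => rw [this]
      rw [this]
      ring
    rw [Finset.sum_congr rfl fun k _ => Finset.sum_congr rfl fun a _ => f6 a k]
    simp only [Finset.sum_add_distrib, ← Finset.mul_sum]
    ring
  have hsq : (fun z => ‖W z‖ ^ 2) = fun z => (inner ℝ (W z) (W z) : ℝ) := by
    funext z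
    rw [real_inner_self_eq_norm_sq]
  obtain ⟨-, jb2⟩ := hJB n N z₀
  obtain ⟨i1, i2⟩ := jb2 W W (two_of sW) (two_of sW)
  refine ⟨sW, W0, ?_, ?_⟩
  · intro k
    show jg (fun z => ‖W z‖ ^ 2) z₀ k = _
    rw [hsq, i1 k, W0, W1 k, real_inner_comm, inner_sub_right, inner_sum]
    have h1 : ∀ a, (inner ℝ (Wl l A ν) ((inner ℝ (Wl l A ν) (A a k) : ℝ) • L (ee a)) : ℝ) = 0 := by
      intro a
      rw [real_inner_smul_right, perpW, mul_zero]
    rw [Finset.sum_congr rfl fun a _ => h1 a]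
    unfold gW
    simp
    ring
  · show jh (fun z => ‖W z‖ ^ 2) z₀ = _
    rw [hsq, i2, W0, real_inner_comm (Wl l A ν) (jh W z₀), W2]
    have h2 : ∀ k, (inner ℝ (jg W z₀ k) (jg W z₀ k) : ℝ) = ‖DW l A T v k‖ ^ 2
        + ∑ a, (inner ℝ (Wl l A ν) (A a k) : ℝ) ^ 2 := by
      intro k
      rw [W1 k]
      set c : Fin n → ℝ := fun a => (inner ℝ (Wl l A ν) (A a k) : ℝ) with hc
      show (inner ℝ (DW l A T v k - ∑ a, c a • L (ee a)) (DW l A T v k - ∑ a, c a • L (ee a)) : ℝ)
        = ‖DW l A T v k‖ ^ 2 + ∑ a, c a ^ 2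
      have h3 : (∑ a, c a • L (ee a)) = L (∑ a, c a • ee a) := by
        rw [map_sum]
        refine Finset.sum_congr rfl fun a _ => ?_
        rw [map_smul]
      rw [h3, inner_sub_left, inner_sub_right, inner_sub_right, perpD,
        real_inner_comm (DW l A T v k) (L (∑ a, c a • ee a)), perpD, L.inner_map_map, sum_inner]
      have h4 : ∀ a, (inner ℝ (c a • (ee a : EE n)) (∑ b, c b • (ee b : EE n)) : ℝ) = c a ^ 2 := by
        intro a
        rw [real_inner_smul_left, inner_sum, Finset.sum_eq_single a]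
        · rw [real_inner_smul_right, ee_inner, if_pos rfl]
          ring
        · intro b _ hb
          rw [real_inner_smul_right, ee_inner, if_neg (Ne.symm hb), mul_zero]
        · intro h
          exact absurd (Finset.mem_univ a) h
      rw [Finset.sum_congr rfl fun a _ => h4 a, real_inner_self_eq_norm_sq]
      ring
    rw [Finset.sum_congr rfl fun k _ => h2 k, Finset.sum_add_distrib]
    unfold Helper32.CL.hW
    have h5 : ∑ k, ∑ a, (inner ℝ (Wl l A ν) (A a k) : ℝ) * inner ℝ (Wl l A ν) (A a k)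
        = ∑ i, ∑ j, (inner ℝ (A i j) (Wl l A ν) : ℝ) ^ 2 := by
      rw [Finset.sum_comm]
      refine Finset.sum_congr rfl fun i _ => Finset.sum_congr rfl fun j _ => ?_
      rw [real_inner_comm]
      ring
    have h6 : ∑ k, ∑ a, (inner ℝ (Wl l A ν) (A a k) : ℝ) ^ 2
        = ∑ i, ∑ j, (inner ℝ (A i j) (Wl l A ν) : ℝ) ^ 2 := by
      rw [Finset.sum_comm]
      refine Finset.sum_congr rfl fun i _ => Finset.sum_congr rfl fun j _ => ?_
      rw [real_inner_comm]
    rw [h5, h6, real_inner_comm (Wl l A ν) (Hv A)]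
    ring

end Pool.Agent.Helper51.CL
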